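import Mathlib
import Pool.Agent.HTA.Fin

/-!
Hindman's theorem for two colours and sums of at most two elements, `HT^{≤2}_2`, holds in every
model of `ACA_0` (equivalently, by the completeness theorem, it is provable in `ACA_0`).
-/

namespace Pool.Agent.Results.MP_bcf494_lc.ModelsOfACA

open Pool.Agent.HTA

universe u

/-- Every model `(M, S)` of `ACA_0` satisfies `HT^{≤2}_2`. -/
theorem result {M : Type u} [CommSemiring M] [LinearOrder M] [IsStrictOrderedRing M]
    [CanonicallyOrderedAdd M] (S : Set (Set M)) (hS : IsModelACA0 S) : HoldsHT22 S :=
  holdsHT22 hS

/-- sanity check (not used): the standard numbers with all sets form a model -/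
theorem standard_model : IsModelACA0 (Set.univ : Set (Set ℕ)) where
  discrete := fun _ _ h => h
  induction := fun A _ h0 hs n => by
    induction n with
    | zero => exact h0
    | succ n ih => exact hs n ih
  comprehension := fun _ _ => trivial

end Pool.Agent.Results.MP_bcf494_lc.ModelsOfACA
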