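import Mathlib
import Pool.Agent.HTC.Rel
import Pool.Agent.HTS.Model

/-!
Ramsey's theorem for pairs and two colours does not imply Hindman's theorem for sums of at most two
elements and two colours over `RCA_0`: there is an omega-model of `RCA_0` in which the first holds
and the second fails.
-/

namespace Pool.Agent.Results.MP_bcf494_lc.Separation

open Classical in
/-- the characteristic function of a set of natural numbers (a total function, written as a
partially defined one, which is the type on which Mathlib defines relative computability) -/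
noncomputable def chi (A : Set ℕ) : ℕ →. ℕ := fun n => Part.some (if n ∈ A then 1 else 0)

/-- `A` is Turing reducible to `B` (Mathlib's relation on characteristic functions) -/
def TuringLE (A B : Set ℕ) : Prop := TuringReducible (chi A) (chi B)

/-- the join of two sets of natural numbers -/
def join (A B : Set ℕ) : Set ℕ := {n | ∃ k, (n = 2 * k ∧ k ∈ A) ∨ (n = 2 * k + 1 ∧ k ∈ B)}

/-- Turing ideals: nonempty classes of sets closed downwards under Turing reducibility and closed
under join; these are the second-order parts of the omega-models of `RCA_0` -/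
structure IsTuringIdeal (M : Set (Set ℕ)) : Prop where
  nonempty : M.Nonempty
  lower_mem : ∀ A B, B ∈ M → TuringLE A B → A ∈ M
  join_mem : ∀ A B, A ∈ M → B ∈ M → join A B ∈ M

/-- the set coding a `k`-colouring of the two-element subsets `{x, y}`, `x < y`, of the natural
numbers: its graph (only the values `c x y` with `x < y` count) -/
def pairGraph {k : ℕ} (c : ℕ → ℕ → Fin k) : Set ℕ :=
  {n | ∃ x y, x < y ∧ n = Nat.pair (Nat.pair x y) (c x y)}

/-- Ramsey's theorem for pairs and `k` colours, `RT^2_k`, holds in the class `M` -/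
def HoldsRT2 (M : Set (Set ℕ)) (k : ℕ) : Prop :=
  ∀ c : ℕ → ℕ → Fin k, pairGraph c ∈ M →
    ∃ H ∈ M, H.Infinite ∧ ∃ i : Fin k, ∀ x ∈ H, ∀ y ∈ H, x < y → c x y = i

/-- the set coding a `k`-colouring of the natural numbers: its graph -/
def graph {k : ℕ} (c : ℕ → Fin k) : Set ℕ := {n | ∃ x, n = Nat.pair x (c x)}

/-- `FS^{≤n}(H)` is monochromatic for `c`: all sums of at least one and at most `n` distinct
elements of `H` have the same colour -/
def Mono {k : ℕ} (n : ℕ) (c : ℕ → Fin k) (H : Set ℕ) : Prop :=
  ∃ i : Fin k, ∀ F : Finset ℕ, (F : Set ℕ) ⊆ H → 1 ≤ F.card → F.card ≤ n → c (∑ x ∈ F, x) = i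

/-- Hindman's theorem for sums of at most `n` elements and `k` colours, `HT^{≤n}_k`, holds in the
class `M` -/
def HoldsHT (M : Set (Set ℕ)) (n k : ℕ) : Prop :=
  ∀ c : ℕ → Fin k, graph c ∈ M → ∃ H ∈ M, H.Infinite ∧ Mono n c H

open Pool.Agent.EMP Pool.Agent.HTC

/-! ### Translation -/

open Classical in
noncomputable def toOm (A : Set ℕ) : Om := fun n => decide (n ∈ A)

lemma toOm_iff (A : Set ℕ) (n : ℕ) : toOm A n = true ↔ n ∈ A := by
  unfold toOm
  simp

lemma toOm_setOf (G : Om) : toOm {x | G x = true} = G := by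
  funext n
  unfold toOm
  by_cases h : G n = true
  · simp [h]
  · simp [h]

lemma chi_eq (A : Set ℕ) : chi A = orc (toOm A) := by
  funext n
  unfold chi orc toOm
  by_cases h : n ∈ A <;> simp [h]

lemma turingLE_iff (A B : Set ℕ) : TuringLE A B ↔ TLE (toOm A) (toOm B) := by
  unfold TuringLE TLE TuringReducible
  rw [chi_eq, chi_eq]
  exact RecursiveIn.iff_nat

lemma toOm_join (A B : Set ℕ) : toOm (join A B) = jn (toOm A) (toOm B) := by
  funext n
  unfold toOm jn join
  by_cases h : n % 2 = 0
  · simp only [h, if_true]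
    have e : n = 2 * (n / 2) := by omega
    apply decide_eq_decide.mpr
    constructor
    · rintro ⟨k, hk | hk⟩
      · have : n / 2 = k := by omega
        rw [this]; exact hk.2
      · omega
    · intro hk
      exact ⟨n / 2, Or.inl ⟨e, hk⟩⟩
  · simp only [h, if_false]
    have e : n = 2 * (n / 2) + 1 := by omega
    apply decide_eq_decide.mpr
    constructor
    · rintro ⟨k, hk | hk⟩
      · omega
      · have : n / 2 = k := by omega
        rw [this]; exact hk.2
    · intro hk
      exact ⟨n / 2, Or.inr ⟨e, hk⟩⟩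

/-- the coding colouring -/
noncomputable def col (A : Om) (n : ℕ) : Fin 2 := ⟨Rel.colr A n, Rel.colr_lt A n⟩

lemma graph_TLE (A : Om) : TLE (toOm (graph (col A))) A := by
  classical
  have p1 : Primrec (fun n : ℕ => n.unpair.1) := Primrec.fst.comp Primrec.unpair
  have p2 : Primrec (fun n : ℕ => n.unpair.2) := Primrec.snd.comp Primrec.unpair
  have hid : Nat.RecursiveIn {orc A} (fun n => Part.some (id n)) := recIn_some Primrec.id
  have h1 : Nat.RecursiveIn {orc A} (fun n => Part.some ((col A n.unpair.1 : ℕ))) :=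
    Pool.Agent.H55.HT3.recIn_comp2 (F := fun n => (col A n : ℕ)) (G := fun n : ℕ => n.unpair.1)
      (Rel.recIn_colr (.oracle _ (Set.mem_singleton _))) (recIn_some p1)
  have h2 := recIn_pair (F := fun n : ℕ => (col A n.unpair.1 : ℕ)) (G := id) h1 hid
  have hG : Primrec (fun q : ℕ => if q.unpair.1 = q.unpair.2.unpair.2 then 1 else 0) :=
    Primrec.ite (Primrec.eq.comp p1 (p2.comp p2)) (Primrec.const 1) (Primrec.const 0)
  refine (recIn_comp' hG h2).of_eq (fun n => ?_)
  simp only [Nat.unpair_pair, id]
  unfold orc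
  congr 1
  have key : (col A n.unpair.1 : ℕ) = n.unpair.2 ↔ toOm (graph (col A)) n = true := by
    rw [toOm_iff]
    unfold graph
    constructor
    · intro h
      refine ⟨n.unpair.1, ?_⟩
      rw [h, Nat.pair_unpair]
    · rintro ⟨x, hx⟩
      rw [hx, Nat.unpair_pair]
  by_cases h : toOm (graph (col A)) n = true
  · rw [if_pos h, if_pos (key.mpr h)]
  · rw [if_neg h, if_neg (fun h' => h (key.mp h'))]

lemma monoO_of_mono {A : Om} {H : Set ℕ} (h : Mono 2 (col A) H) :
    Rel.MonoO (Rel.colr A) (toOm H) := by
  obtain ⟨i, hi⟩ := h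
  refine ⟨(i : ℕ), fun x hx => ?_, fun x y hx hy hxy => ?_⟩
  · have h1 := (toOm_iff H x).mp hx
    have := hi {x} (by simpa using h1) (by simp) (by simp)
    rw [Finset.sum_singleton] at this
    rw [← this]
    rfl
  · have h1 := (toOm_iff H x).mp hx
    have h2 := (toOm_iff H y).mp hy
    have hsub : (({x, y} : Finset ℕ) : Set ℕ) ⊆ H := by
      intro z hz
      simp only [Finset.coe_insert, Finset.coe_singleton, Set.mem_insert_iff,
        Set.mem_singleton_iff] at hz
      rcases hz with rfl | rfl
      · exact h1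
      · exact h2
    have hcard := Finset.card_pair hxy.ne
    have := hi {x, y} hsub (by omega) (by omega)
    rw [Finset.sum_pair hxy.ne] at this
    rw [← this]
    rfl

lemma chain {W : ℕ → Om} (h : ∀ n, TLE (W n) (W (n + 1))) {n m : ℕ} (hnm : n ≤ m) :
    TLE (W n) (W m) := by
  induction hnm with
  | refl => exact TLE.refl _
  | step _ ih => exact TLE.trans ih (h _)

/-- The negative answer to Q1: there is a Turing ideal (the second-order part of an omega-model of
`RCA_0`) in which Ramsey's theorem for pairs and two colours, `RT^2_2`, holds and Hindman's theorem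
for sums of at most two elements and two colours, `HT^{≤2}_2`, fails. -/
theorem result : ∃ M : Set (Set ℕ), IsTuringIdeal M ∧ HoldsRT2 M 2 ∧ ¬ HoldsHT M 2 2 := by
  classical
  obtain ⟨e, W, _, hW0, hW, hRT, hno⟩ := Pool.Agent.HTS.model
  refine ⟨{A | ∃ n, TLE (toOm A) (W n)}, ⟨?_, ?_, ?_⟩, ?_, ?_⟩
  · refine ⟨{x | W 0 x = true}, 0, ?_⟩
    rw [toOm_setOf]
    exact TLE.refl _
  · rintro A B ⟨n, hn⟩ hAB
    exact ⟨n, TLE.trans ((turingLE_iff A B).mp hAB) hn⟩
  · rintro A B ⟨n, hn⟩ ⟨m, hm⟩
    refine ⟨max n m, ?_⟩
    rw [toOm_join]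
    exact TLE_jn (TLE.trans hn (chain hW (le_max_left n m)))
      (TLE.trans hm (chain hW (le_max_right n m)))
  · rintro c ⟨n, hn⟩
    -- the colouring as an oracle
    have ht : TLE (fun p => toOm (pairGraph c) (Nat.pair p 1)) (W n) := by
      have h1 := recIn_comp (F := fun p => Nat.pair p 1) hn
        (Primrec₂.natPair.comp Primrec.id (Primrec.const 1))
      exact h1
    obtain ⟨m, G, i, hG, hinf, hhom⟩ := hRT n _ ht
    have key : ∀ x y, x < y → ((fun p => toOm (pairGraph c) (Nat.pair p 1)) (Nat.pair x y) = true ↔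
        c x y = 1) := by
      intro x y hxy
      simp only
      rw [toOm_iff]
      unfold pairGraph
      constructor
      · rintro ⟨x', y', _, h⟩
        rw [Nat.pair_eq_pair, Nat.pair_eq_pair] at h
        obtain ⟨⟨rfl, rfl⟩, h2⟩ := h
        apply Fin.ext
        exact h2.symm
      · intro h
        refine ⟨x, y, hxy, ?_⟩
        rw [h]
        rfl
    refine ⟨{x | G x = true}, ⟨m, by rw [toOm_setOf]; exact hG⟩, hinf, if i = true then 1 else 0, ?_⟩
    intro x hx y hy hxy
    have h1 := hhom x y hxy hx hy
    have h2 : i = true ↔ c x y = 1 := by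
      rw [← h1]
      exact key x y hxy
    by_cases hi : i = true
    · rw [if_pos hi]
      exact h2.mp hi
    · rw [if_neg hi]
      have h3 : c x y ≠ 1 := fun h => hi (h2.mpr h)
      have h4 : (c x y : ℕ) ≠ 1 := fun h => h3 (Fin.ext h)
      apply Fin.ext
      have h5 := (c x y).isLt
      change (c x y : ℕ) = 0
      omega
  · intro hHT
    have hg : graph (col (Pool.Agent.HTS.ce e)) ∈ {A | ∃ n, TLE (toOm A) (W n)} := by
      refine ⟨0, ?_⟩
      rw [hW0]
      exact graph_TLE _
    obtain ⟨H, ⟨n, hn⟩, hinf, hmono⟩ := hHT _ hg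
    apply hno n
    have hA : TLE (Pool.Agent.HTS.ce e) (W n) := by
      rw [← hW0]
      exact chain hW (Nat.zero_le n)
    have hinf' : {x | toOm H x = true}.Infinite := by
      have : {x | toOm H x = true} = H := by
        ext x
        exact toOm_iff H x
      rw [this]
      exact hinf
    apply Rel.decode_recIn (A := Pool.Agent.HTS.ce e) (H := toOm H) hA hn hinf' (monoO_of_mono hmono)
    intro x
    unfold Pool.Agent.HTS.rg Pool.Agent.HTS.ce
    simp only [Nat.unpair_pair, decide_eq_true_eq]

end Pool.Agent.Results.MP_bcf494_lc.Separation
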