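import Mathlib
import Pool.Agent.HTC.CaseB
import Pool.Agent.HTC.Dec

/-!
Hindman's theorem for sums of at most two elements and two colours implies arithmetical
comprehension: over omega-models of `RCA_0`, and in the form of a computable instance all of whose
solutions compute the halting problem.
-/

namespace Pool.Agent.Results.MP_bcf494_lc.TwoColours

open Classical in
/-- the characteristic function of a set of natural numbers (a total function, written as a
partially defined one, which is the type on which Mathlib defines relative computability) -/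
noncomputable def chi (A : Set ℕ) : ℕ →. ℕ := fun n => Part.some (if n ∈ A then 1 else 0)

/-- `A` is Turing reducible to `B` (Mathlib's relation on characteristic functions) -/
def TuringLE (A B : Set ℕ) : Prop := TuringReducible (chi A) (chi B)

/-- the join of two sets of natural numbers -/
def join (A B : Set ℕ) : Set ℕ := {n | ∃ k, (n = 2 * k ∧ k ∈ A) ∨ (n = 2 * k + 1 ∧ k ∈ B)}

/-- Turing ideals: nonempty classes of sets closed downwards under Turing reducibility and closed
under join; these are the second-order parts of the omega-models of `RCA_0` -/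
structure IsTuringIdeal (M : Set (Set ℕ)) : Prop where
  nonempty : M.Nonempty
  lower_mem : ∀ A B, B ∈ M → TuringLE A B → A ∈ M
  join_mem : ∀ A B, A ∈ M → B ∈ M → join A B ∈ M

/-- the set coding a `k`-colouring of the natural numbers: its graph -/
def graph {k : ℕ} (c : ℕ → Fin k) : Set ℕ := {n | ∃ x, n = Nat.pair x (c x)}

/-- `FS^{≤n}(H)` is monochromatic for `c`: all sums of at least one and at most `n` distinct
elements of `H` have the same colour -/
def Mono {k : ℕ} (n : ℕ) (c : ℕ → Fin k) (H : Set ℕ) : Prop :=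
  ∃ i : Fin k, ∀ F : Finset ℕ, (F : Set ℕ) ⊆ H → 1 ≤ F.card → F.card ≤ n → c (∑ x ∈ F, x) = i

/-- `HT^{≤n}_k` holds in the class `M` -/
def HoldsHT (M : Set (Set ℕ)) (n k : ℕ) : Prop :=
  ∀ c : ℕ → Fin k, graph c ∈ M → ∃ H ∈ M, H.Infinite ∧ Mono n c H

/-- the set `{e : ∃ t, (t, e) ∈ A}` of all numbers enumerated by `A` -/
def proj (A : Set ℕ) : Set ℕ := {e | ∃ t, Nat.pair t e ∈ A}

/-- arithmetical comprehension (equivalently, over `RCA_0`: comprehension for `Σ^0_1` formulas
with parameters) holds in the class `M` -/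
def HoldsACA (M : Set (Set ℕ)) : Prop := ∀ A ∈ M, proj A ∈ M

/-- the halting problem `0'`: the codes `e` of partial recursive functions defined at `e` -/
def halting : Set ℕ :=
  {e | (Nat.Partrec.Code.eval (Denumerable.ofNat Nat.Partrec.Code e) e).Dom}

open Pool.Agent.EMP Pool.Agent.H55.HT3 Pool.Agent.HTC

/-! ### Translation -/

open Classical in
noncomputable def toOm (A : Set ℕ) : Om := fun n => decide (n ∈ A)

lemma chi_eq (A : Set ℕ) : chi A = orc (toOm A) := by
  funext n
  unfold chi orc toOm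
  by_cases h : n ∈ A <;> simp [h]

lemma turingLE_iff (A B : Set ℕ) : TuringLE A B ↔ TLE (toOm A) (toOm B) := by
  unfold TuringLE TLE TuringReducible
  rw [chi_eq, chi_eq]
  exact RecursiveIn.iff_nat

lemma toOm_join (A B : Set ℕ) : toOm (join A B) = jn (toOm A) (toOm B) := by
  funext n
  unfold toOm jn join
  by_cases h : n % 2 = 0
  · simp only [h, if_true]
    have e : n = 2 * (n / 2) := by omega
    apply decide_eq_decide.mpr
    constructor
    · rintro ⟨k, hk | hk⟩
      · have : n / 2 = k := by omega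
        rw [this]; exact hk.2
      · omega
    · intro hk
      exact ⟨n / 2, Or.inl ⟨e, hk⟩⟩
  · simp only [h, if_false]
    have e : n = 2 * (n / 2) + 1 := by omega
    apply decide_eq_decide.mpr
    constructor
    · rintro ⟨k, hk | hk⟩
      · omega
      · have : n / 2 = k := by omega
        rw [this]; exact hk.2
    · intro hk
      exact ⟨n / 2, Or.inr ⟨e, hk⟩⟩

lemma toOm_iff (A : Set ℕ) (n : ℕ) : toOm A n = true ↔ n ∈ A := by
  unfold toOm
  simp

/-! ### First stages -/

open Classical in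
/-- keep only the first stage at which a number is enumerated -/
noncomputable def fst1 (A : Om) : Om :=
  fun n => decide (A n = true ∧ ∀ t < n.unpair.1, ¬ A (Nat.pair t n.unpair.2) = true)

lemma fst1_iff (A : Om) (t e : ℕ) :
    RA (fst1 A) t e ↔ A (Nat.pair t e) = true ∧ ∀ s < t, ¬ A (Nat.pair s e) = true := by
  unfold RA fst1
  simp only [Nat.unpair_pair, decide_eq_true_eq]

lemma fst1_bdd (A : Om) (e : ℕ) : ∃ N, ∀ t, RA (fst1 A) t e → t < N := by
  classical
  by_cases h : ∃ t, RA (fst1 A) t e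
  · obtain ⟨t0, h0⟩ := h
    refine ⟨t0 + 1, fun t ht => ?_⟩
    rw [fst1_iff] at h0 ht
    by_contra hc
    exact ht.2 t0 (by omega) h0.1
  · exact ⟨0, fun t ht => absurd ⟨t, ht⟩ h⟩

lemma fst1_ex (A : Om) (e : ℕ) : (∃ t, RA (fst1 A) t e) ↔ ∃ t, A (Nat.pair t e) = true := by
  classical
  constructor
  · rintro ⟨t, ht⟩
    exact ⟨t, ((fst1_iff A t e).mp ht).1⟩
  · intro h
    exact ⟨Nat.find h, (fst1_iff A _ e).mpr ⟨Nat.find_spec h, fun s hs => Nat.find_min h hs⟩⟩

lemma recIn_fst1 {O : Set (ℕ →. ℕ)} {A : Om} (hA : Nat.RecursiveIn O (orc A)) :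
    Nat.RecursiveIn O (orc (fst1 A)) := by
  classical
  have p1 : Primrec (fun n : ℕ => n.unpair.1) := Primrec.fst.comp Primrec.unpair
  have p2 : Primrec (fun n : ℕ => n.unpair.2) := Primrec.snd.comp Primrec.unpair
  have hid : Nat.RecursiveIn O (fun n => Part.some (id n)) := recIn_some Primrec.id
  have hsucc : Nat.RecursiveIn O (fun n => Part.some (n + 1)) := recIn_some Primrec.succ
  have h0 : Nat.RecursiveIn O (fun n => Part.some (cd A (n + 1))) :=
    recIn_comp2 (F := cd A) (G := fun n => n + 1) (recIn_cd hA) hsucc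
  have h1 : Nat.RecursiveIn O (fun n => Part.some (Nat.pair (cd A (n + 1)) (id n))) :=
    recIn_pair h0 hid
  have hR : PrimrecRel (fun (t : ℕ) (w : ℕ × ℕ) =>
      ¬ w.1.testBit (Nat.pair t w.2.unpair.2) = true) :=
    (prim_testBit.comp (Primrec.fst.comp Primrec.snd)
      (Primrec₂.natPair.comp Primrec.fst (p2.comp (Primrec.snd.comp Primrec.snd)))).not
  have hP : PrimrecPred (fun w : ℕ × ℕ => w.1.testBit w.2 = true ∧
      ∀ t < w.2.unpair.1, ¬ w.1.testBit (Nat.pair t w.2.unpair.2) = true) := by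
    apply PrimrecPred.and
    · exact prim_testBit.comp Primrec.fst Primrec.snd
    · exact PrimrecRel.comp (R := fun (n : ℕ) (w : ℕ × ℕ) => ∀ t < n,
        ¬ w.1.testBit (Nat.pair t w.2.unpair.2) = true) (forall_lt' hR)
        (f := fun w : ℕ × ℕ => w.2.unpair.1) (g := fun w : ℕ × ℕ => w)
        (p1.comp Primrec.snd) Primrec.id
  have hG : Primrec (fun q : ℕ => if (q.unpair.1.testBit q.unpair.2 = true ∧
      ∀ t < q.unpair.2.unpair.1, ¬ q.unpair.1.testBit (Nat.pair t q.unpair.2.unpair.2) = true)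
      then 1 else 0) := by
    have h := Primrec.ite hP (Primrec.const 1) (Primrec.const 0)
    exact h.comp Primrec.unpair
  refine (recIn_comp' hG h1).of_eq (fun n => ?_)
  simp only [Nat.unpair_pair, id]
  unfold orc
  congr 1
  have key : ((cd A (n + 1)).testBit n = true ∧ ∀ t < n.unpair.1,
      ¬ (cd A (n + 1)).testBit (Nat.pair t n.unpair.2) = true) ↔ fst1 A n = true := by
    unfold fst1
    simp only [testBit_cd, decide_eq_true_eq]
    constructor
    · rintro ⟨h2, h3⟩
      refine ⟨h2.2, fun t ht h4 => h3 t ht ⟨?_, h4⟩⟩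
      have := Nat.pair_lt_pair_left n.unpair.2 ht
      rw [Nat.pair_unpair] at this
      omega
    · rintro ⟨h2, h3⟩
      exact ⟨⟨by omega, h2⟩, fun t ht h4 => h3 t ht h4.2⟩
  by_cases h : fst1 A n = true
  · rw [if_pos h, if_pos (key.mpr h)]
  · rw [if_neg h, if_neg (fun h' => h (key.mp h'))]

/-! ### The colouring -/

/-- the two-colouring attached to a set -/
noncomputable def colr (A : Om) (n : ℕ) : Fin 2 := ⟨colR (RA (fst1 A)) n, colR_lt _ _⟩

lemma recIn_colr {O : Set (ℕ →. ℕ)} {A : Om} (hA : Nat.RecursiveIn O (orc A)) :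
    Nat.RecursiveIn O (fun n => Part.some ((colr A n : ℕ))) :=
  recIn_colR (recIn_fst1 hA)

lemma graph_TLE (A : Om) : TLE (toOm (graph (colr A))) A := by
  classical
  have p1 : Primrec (fun n : ℕ => n.unpair.1) := Primrec.fst.comp Primrec.unpair
  have p2 : Primrec (fun n : ℕ => n.unpair.2) := Primrec.snd.comp Primrec.unpair
  have hid : Nat.RecursiveIn {orc A} (fun n => Part.some (id n)) := recIn_some Primrec.id
  have h1 : Nat.RecursiveIn {orc A} (fun n => Part.some ((colr A n.unpair.1 : ℕ))) :=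
    recIn_comp2 (F := fun n => (colr A n : ℕ)) (G := fun n : ℕ => n.unpair.1)
      (recIn_colr (.oracle _ (Set.mem_singleton _))) (recIn_some p1)
  have h2 := recIn_pair (F := fun n : ℕ => (colr A n.unpair.1 : ℕ)) (G := id) h1 hid
  have hG : Primrec (fun q : ℕ => if q.unpair.1 = q.unpair.2.unpair.2 then 1 else 0) :=
    Primrec.ite (Primrec.eq.comp p1 (p2.comp p2)) (Primrec.const 1) (Primrec.const 0)
  refine (recIn_comp' hG h2).of_eq (fun n => ?_)
  simp only [Nat.unpair_pair, id]
  unfold orc
  congr 1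
  have key : (colr A n.unpair.1 : ℕ) = n.unpair.2 ↔ toOm (graph (colr A)) n = true := by
    rw [toOm_iff]
    unfold graph
    constructor
    · intro h
      refine ⟨n.unpair.1, ?_⟩
      rw [h, Nat.pair_unpair]
    · rintro ⟨x, hx⟩
      rw [hx, Nat.unpair_pair]
  by_cases h : toOm (graph (colr A)) n = true
  · rw [if_pos h, if_pos (key.mpr h)]
  · rw [if_neg h, if_neg (fun h' => h (key.mp h'))]

lemma sol_of_mono {A : Om} {H : Set ℕ} (h : Mono 2 (colr A) H) :
    Sol (fun n => (colR (RA (fst1 A)) n : ZMod 2)) {x | x ∈ H ∧ 0 < x} := by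
  obtain ⟨i, hi⟩ := h
  refine ⟨((i : ℕ) : ZMod 2), fun x hx => ⟨hx.2, ?_⟩, fun x hx y hy hxy => ?_⟩
  · have := hi {x} (by simpa using hx.1) (by simp) (by simp)
    rw [Finset.sum_singleton] at this
    rw [← this]
    rfl
  · have hsub : (({x, y} : Finset ℕ) : Set ℕ) ⊆ H := by
      intro z hz
      simp only [Finset.coe_insert, Finset.coe_singleton, Set.mem_insert_iff,
        Set.mem_singleton_iff] at hz
      rcases hz with rfl | rfl
      · exact hx.1
      · exact hy.1
    have hcard := Finset.card_pair hxy.ne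
    have := hi {x, y} hsub (by omega) (by omega)
    rw [Finset.sum_pair hxy.ne] at this
    rw [← this]
    rfl

lemma infinite_pos {H : Set ℕ} (hinf : H.Infinite) : {x | x ∈ H ∧ 0 < x}.Infinite := by
  rw [Set.infinite_iff_exists_gt]
  intro a
  obtain ⟨x, hx, hax⟩ := hinf.exists_gt a
  exact ⟨x, ⟨hx, by omega⟩, hax⟩

lemma recIn_filter {O : Set (ℕ →. ℕ)} {H : Set ℕ} (hH : Nat.RecursiveIn O (orc (toOm H)))
    {P : ℕ → Prop} (hP : PrimrecPred P) : Nat.RecursiveIn O (orc (toOm {x | x ∈ H ∧ P x})) := by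
  classical
  have p1 : Primrec (fun n : ℕ => n.unpair.1) := Primrec.fst.comp Primrec.unpair
  have p2 : Primrec (fun n : ℕ => n.unpair.2) := Primrec.snd.comp Primrec.unpair
  have hid : Nat.RecursiveIn O (fun n => Part.some (id n)) := recIn_some Primrec.id
  have h1 := recIn_pair hid (recIn_comp hH (F := fun p => p) Primrec.id)
  have hG : Primrec (fun q : ℕ => if q.unpair.2 = 1 ∧ P q.unpair.1 then 1 else 0) :=
    Primrec.ite ((Primrec.eq.comp p2 (Primrec.const 1)).and (hP.comp p1)) (Primrec.const 1)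
      (Primrec.const 0)
  refine (recIn_comp' hG h1).of_eq (fun n => ?_)
  simp only [Nat.unpair_pair, id]
  unfold orc
  congr 1
  by_cases hn : n ∈ H
  · rw [if_pos ((toOm_iff H n).mpr hn)]
    by_cases hp : P n
    · have h2 : toOm {x | x ∈ H ∧ P x} n = true := (toOm_iff _ n).mpr ⟨hn, hp⟩
      rw [if_pos ⟨rfl, hp⟩, if_pos h2]
    · have h2 : ¬ toOm {x | x ∈ H ∧ P x} n = true := fun h => hp ((toOm_iff _ n).mp h).2
      rw [if_neg (fun h => hp h.2), if_neg h2]
  · have h2 : ¬ toOm {x | x ∈ H ∧ P x} n = true := fun h => hn ((toOm_iff _ n).mp h).1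
    rw [if_neg (fun h => hn ((toOm_iff H n).mp h)), if_neg (fun h => by omega), if_neg h2]

/-- the main computation: solutions compute the enumerated set -/
lemma decode_recIn {O : Set (ℕ →. ℕ)} {A : Om} {H : Set ℕ} (hA : Nat.RecursiveIn O (orc A))
    (hH : Nat.RecursiveIn O (orc (toOm H))) (hinf : H.Infinite) (hm : Mono 2 (colr A) H) {D : Om}
    (hD : ∀ e, D e = true ↔ ∃ t, A (Nat.pair t e) = true) : Nat.RecursiveIn O (orc D) := by
  have hs := sol_of_mono hm
  obtain ⟨Y, hYX, hY, hex, hdec⟩ := core (isStg (fst1_bdd A)) (isCol (RA (fst1 A)))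
    (infinite_pos hinf) hs
  have hpos : PrimrecPred (fun x : ℕ => 0 < x) := Primrec.nat_lt.comp (Primrec.const 0) Primrec.id
  have hYrec : Nat.RecursiveIn O (orc (toOm Y)) := by
    rcases hY with h | ⟨b, h⟩
    · rw [h]
      exact recIn_filter hH hpos
    · rw [h]
      exact recIn_filter (H := {x | x ∈ H ∧ 0 < x}) (recIn_filter hH hpos)
        (P := fun x => low x = b) (Primrec.eq.comp prim_low (Primrec.const b))
  apply recIn_dec (recIn_fst1 hA) hYrec
  · intro k
    obtain ⟨x₁, h₁, x₂, h₂, x₃, h₃, x₄, h₄, hAdm⟩ := hex k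
    exact ⟨x₁, x₂, x₃, x₄, (toOm_iff _ _).mpr h₁, (toOm_iff _ _).mpr h₂, (toOm_iff _ _).mpr h₃,
      (toOm_iff _ _).mpr h₄, hAdm⟩
  · intro e x₁ x₂ x₃ x₄ h₁ h₂ h₃ h₄ hAdm
    rw [hD, ← fst1_ex]
    have hle := hdec (e + 1) x₁ ((toOm_iff _ _).mp h₁) x₂ ((toOm_iff _ _).mp h₂) x₃
      ((toOm_iff _ _).mp h₃) x₄ ((toOm_iff _ _).mp h₄) hAdm
    constructor
    · rintro ⟨t, ht⟩
      have h5 := le_lst (fst1_bdd A) (k := e + 1) ht (by omega)
      exact ⟨t, by omega, ht⟩
    · rintro ⟨t, _, ht⟩
      exact ⟨t, ht⟩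

/-- The relativised form: for every set `A` there is a two-colouring computable in `A` such that
every solution, joined with `A`, computes the set enumerated by `A`. -/
lemma main (A : Set ℕ) : TuringLE (graph (colr (toOm A))) A ∧
    ∀ H : Set ℕ, H.Infinite → Mono 2 (colr (toOm A)) H → TuringLE (proj A) (join H A) := by
  constructor
  · rw [turingLE_iff]
    exact graph_TLE _
  · intro H hinf hm
    rw [turingLE_iff, toOm_join]
    apply decode_recIn (A := toOm A) (H := H) (TLE_right _ _) (TLE_left _ _) hinf hm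
    intro e
    rw [toOm_iff]
    unfold proj
    simp only [Set.mem_ofPred_eq, toOm_iff]

/-! ### The halting problem -/

/-- halting within a number of steps -/
def haltA : Om := fun n => (Nat.Partrec.Code.evaln n.unpair.1
  (Denumerable.ofNat Nat.Partrec.Code n.unpair.2) n.unpair.2).isSome

lemma haltA_iff (e : ℕ) : (∃ t, haltA (Nat.pair t e) = true) ↔ e ∈ halting := by
  unfold haltA halting
  simp only [Nat.unpair_pair, Set.mem_ofPred_eq, Part.dom_iff_mem]
  constructor
  · rintro ⟨t, ht⟩
    obtain ⟨x, hx⟩ := Option.isSome_iff_exists.mp ht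
    exact ⟨x, Nat.Partrec.Code.evaln_sound hx⟩
  · rintro ⟨x, hx⟩
    obtain ⟨t, ht⟩ := Nat.Partrec.Code.evaln_complete.mp hx
    exact ⟨t, Option.isSome_iff_exists.mpr ⟨x, ht⟩⟩

lemma prim_haltA : Primrec (fun n => if haltA n = true then 1 else 0) := by
  have p1 : Primrec (fun n : ℕ => n.unpair.1) := Primrec.fst.comp Primrec.unpair
  have p2 : Primrec (fun n : ℕ => n.unpair.2) := Primrec.snd.comp Primrec.unpair
  have h : Primrec haltA := by
    unfold haltA
    exact Primrec.option_isSome.comp (Nat.Partrec.Code.primrec_evaln.comp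
      (Primrec.pair (Primrec.pair p1 ((Primrec.ofNat _).comp p2)) p2))
  exact Primrec.ite (Primrec.eq.comp h (Primrec.const true)) (Primrec.const 1) (Primrec.const 0)

lemma recIn_haltA (O : Set (ℕ →. ℕ)) : Nat.RecursiveIn O (orc haltA) :=
  recIn_some prim_haltA

lemma computable_colr : Computable (colr haltA) := by
  have h1 : Nat.RecursiveIn {} (fun n => Part.some ((colr haltA n : ℕ))) :=
    recIn_colr (recIn_haltA _)
  have h2 : Partrec (fun n => Part.some ((colr haltA n : ℕ))) :=
    recursiveIn_empty_iff.mp (RecursiveIn.iff_nat.mpr h1)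
  have h3 : Computable (fun n => (colr haltA n : ℕ)) := h2
  refine Computable.encode_iff.mp (h3.of_eq (fun n => ?_))
  rfl

/-- Hindman's theorem for sums of at most two elements and **two** colours implies arithmetical
comprehension:

* there is a computable colouring `c : ℕ → 2` such that every infinite `H` with `FS^{≤2}(H)`
  monochromatic computes the halting problem;
* every Turing ideal (omega-model of `RCA_0`) satisfying `HT^{≤2}_2` satisfies `ACA_0`. -/
theorem result :
    (∃ c : ℕ → Fin 2, Computable c ∧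
      ∀ H : Set ℕ, H.Infinite → Mono 2 c H → TuringLE halting H) ∧
    ∀ M : Set (Set ℕ), IsTuringIdeal M → HoldsHT M 2 2 → HoldsACA M := by
  refine ⟨⟨colr haltA, computable_colr, ?_⟩, ?_⟩
  · intro H hinf hm
    rw [turingLE_iff]
    apply decode_recIn (recIn_haltA _) (H := H) (.oracle _ (Set.mem_singleton _)) hinf hm
    intro e
    rw [toOm_iff]
    exact (haltA_iff e).symm
  · intro M hM hHT A hA
    obtain ⟨h1, h2⟩ := main A
    obtain ⟨H, hH, hinf, hm⟩ := hHT _ (hM.lower_mem _ _ hA h1)
    exact hM.lower_mem _ _ (hM.join_mem _ _ hH hA) (h2 H hinf hm)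

end Pool.Agent.Results.MP_bcf494_lc.TwoColours
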